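import Mathlib
import Pool.Agent.Helper79.Fliess2
import Pool.Agent.Helper79.FliessGram
import Pool.Agent.Helper680.CommB

set_option autoImplicit false

/-!
# Slices with at most `n` blocks do not decide context-freeness of a commutative closure

Let `M` be the set of words over `n ≥ 4` letters in which every letter occurs and no three of the
first four letters occur equally often (for `n = 4` essentially helper79's language).  Every slice
`M ∩ b₁* ⋯ b_m*` with `m ≤ n` (repetitions among the `b_j` allowed) is context-free, but `M` is not.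
`M` is the commutative closure of its own slice `M ∩ a₁* ⋯ aₙ*`.
-/

namespace Pool.Agent.Results.MP_434a84_lc.SliceCriterion

open Pool.Agent.Helper79 Pool.Agent.Helper680.Comm

/-- The commutative closure of `L`: all rearrangements of words of `L`. -/
def comm {α : Type} (L : Language α) : Language α := {w | ∃ v ∈ L, v.Perm w}

/-- Words over four letters in which no three letters occur equally often. -/
def M4 : Language (Fin 4) := {w | ¬ Fliess.Bad w}

theorem bad_perm {w v : List (Fin 4)} (h : w.Perm v) (hw : Fliess.Bad w) : Fliess.Bad v := by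
  obtain ⟨i, j, k, h1, h2, h3, h4, h5⟩ := hw
  exact ⟨i, j, k, h1, h2, h3, by rw [← h.count_eq, ← h.count_eq, h4],
    by rw [← h.count_eq, ← h.count_eq, h5]⟩

theorem bad_iff (σ : Equiv.Perm (Fin 4)) (w : List (Fin 4)) :
    Fliess.Bad w ↔ ∃ p q r : Fin 4, p ≠ q ∧ p ≠ r ∧ q ≠ r ∧ w.count (σ p) = w.count (σ q) ∧
      w.count (σ q) = w.count (σ r) := by
  constructor
  · rintro ⟨i, j, k, h1, h2, h3, h4, h5⟩
    obtain ⟨p, rfl⟩ := σ.surjective i
    obtain ⟨q, rfl⟩ := σ.surjective j
    obtain ⟨r, rfl⟩ := σ.surjective k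
    exact ⟨p, q, r, fun h => h1 (by rw [h]), fun h => h2 (by rw [h]), fun h => h3 (by rw [h]), h4, h5⟩
  · rintro ⟨p, q, r, h1, h2, h3, h4, h5⟩
    exact ⟨σ p, σ q, σ r, fun h => h1 (σ.injective h), fun h => h2 (σ.injective h),
      fun h => h3 (σ.injective h), h4, h5⟩

theorem comb (n : Fin 4 → ℕ) :
    (¬ ∃ p q r : Fin 4, p ≠ q ∧ p ≠ r ∧ q ≠ r ∧ n p = n q ∧ n q = n r) ↔
      ((n 0 ≠ n 1 ∧ n 2 ≠ n 3) ∨ (n 0 ≠ n 3 ∧ n 1 ≠ n 2)) := by
  constructor
  · intro h
    by_contra hc
    have hc1 : n 0 = n 1 ∨ n 2 = n 3 := by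
      by_contra h'; push Not at h'; exact hc (Or.inl h')
    have hc2 : n 0 = n 3 ∨ n 1 = n 2 := by
      by_contra h'; push Not at h'; exact hc (Or.inr h')
    apply h
    rcases hc1 with h1 | h1 <;> rcases hc2 with h2 | h2
    · exact ⟨0, 1, 3, by decide, by decide, by decide, h1, by omega⟩
    · exact ⟨0, 1, 2, by decide, by decide, by decide, h1, by omega⟩
    · exact ⟨0, 2, 3, by decide, by decide, by decide, by omega, h1⟩
    · exact ⟨1, 2, 3, by decide, by decide, by decide, h2, h1⟩
  · rintro h ⟨p, q, r, h1, h2, h3, h4, h5⟩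
    fin_cases p <;> fin_cases q <;> fin_cases r <;>
      simp only [Fin.zero_eta, Fin.mk_one, Fin.reduceFinMk, ne_eq, not_true_eq_false] at h1 h2 h3 h4 h5 <;>
      omega

theorem mem_M4 (σ : Equiv.Perm (Fin 4)) (w : List (Fin 4)) : w ∈ M4 ↔
    ((w.count (σ 0) ≠ w.count (σ 1) ∧ w.count (σ 2) ≠ w.count (σ 3)) ∨
      (w.count (σ 0) ≠ w.count (σ 3) ∧ w.count (σ 1) ≠ w.count (σ 2))) := by
  rw [← comb (fun m => w.count (σ m))]
  exact not_congr (bad_iff σ w)

/-- Slices for four distinct letters. -/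
theorem cf_inj (b : Fin 4 → Fin 4) (hb : Function.Injective b) :
    Language.IsContextFree ({w | w ∈ M4 ∧ w ∈ blocks b} : Language (Fin 4)) := by
  let σ : Equiv.Perm (Fin 4) := Equiv.ofBijective b (Finite.injective_iff_bijective.1 hb)
  have hσ : ∀ j, σ j = b j := fun j => rfl
  have hcount : ∀ (i j k l : ℕ) (m : Fin 4), (List.replicate i (b 0) ++ List.replicate j (b 1) ++
      List.replicate k (b 2) ++ List.replicate l (b 3)).count (σ m) = ![i, j, k, l] m := by
    intro i j k l m
    simp only [List.count_append, List.count_replicate, beq_iff_eq, hσ, hb.eq_iff]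
    fin_cases m <;> simp
  have hmem : ∀ (i j k l : ℕ), (List.replicate i (b 0) ++ List.replicate j (b 1) ++
      List.replicate k (b 2) ++ List.replicate l (b 3)) ∈ M4 ↔
        ((i ≠ j ∧ k ≠ l) ∨ (i ≠ l ∧ j ≠ k)) := by
    intro i j k l
    rw [mem_M4 σ, hcount, hcount, hcount, hcount]
    exact Iff.rfl
  refine ⟨FliessGram.g (b 0) (b 1) (b 2) (b 3), ?_⟩
  ext w
  rw [FliessGram.lang]
  constructor
  · rintro ⟨i, j, k, l, h, rfl⟩
    refine ⟨(hmem i j k l).2 h, ![i, j, k, l], ?_⟩
    simp [List.ofFn_succ]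
  · rintro ⟨h1, k, hk⟩
    have hw : w = List.replicate (k 0) (b 0) ++ List.replicate (k 1) (b 1) ++
        List.replicate (k 2) (b 2) ++ List.replicate (k 3) (b 3) := by
      rw [hk]
      simp [List.ofFn_succ]
    refine ⟨k 0, k 1, k 2, k 3, ?_, hw⟩
    rw [hw] at h1
    exact (hmem _ _ _ _).1 h1

/-- The part of `M4` avoiding one letter is context-free. -/
theorem cf_missing (t : Fin 4) :
    Language.IsContextFree ({w | w ∈ M4 ∧ t ∉ w} : Language (Fin 4)) := by
  let σ : Equiv.Perm (Fin 4) := Equiv.swap 3 t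
  have h3 : σ 3 = t := Equiv.swap_apply_left 3 t
  have hreg : ∀ z : Fin 4, Language.IsRegular
      ({w : List (Fin 4) | z ∈ w} ⊓ {w : List (Fin 4) | t ∈ w}ᶜ : Language (Fin 4)) := by
    intro z
    exact (reg_mem z).inf (reg_mem t).compl
  have c1 := cf_inter (cf_ne (σ 0) (σ 1) (fun h => by simpa using σ.injective h)) (hreg (σ 2))
  have c2 := cf_inter (cf_ne (σ 1) (σ 2) (fun h => by simpa using σ.injective h)) (hreg (σ 0))
  have c3 := Pool.Agent.Helper336.CF.cf_union c1 c2
  have e : ({w | w ∈ M4 ∧ t ∉ w} : Set (List (Fin 4))) =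
      (({w : List (Fin 4) | w ∈ ({w : List (Fin 4) | w.count (σ 0) ≠ w.count (σ 1)} : Language (Fin 4)) ∧
        w ∈ ({w : List (Fin 4) | (σ 2) ∈ w} ⊓ {w : List (Fin 4) | t ∈ w}ᶜ : Language (Fin 4))} : Set (List (Fin 4))) ∪
        ({w : List (Fin 4) | w ∈ ({w : List (Fin 4) | w.count (σ 1) ≠ w.count (σ 2)} : Language (Fin 4)) ∧
        w ∈ ({w : List (Fin 4) | (σ 0) ∈ w} ⊓ {w : List (Fin 4) | t ∈ w}ᶜ : Language (Fin 4))} : Set (List (Fin 4)))) := by
    ext w
    show (w ∈ M4 ∧ t ∉ w) ↔ ((w.count (σ 0) ≠ w.count (σ 1)) ∧ (σ 2) ∈ w ∧ ¬ t ∈ w) ∨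
      ((w.count (σ 1) ≠ w.count (σ 2)) ∧ (σ 0) ∈ w ∧ ¬ t ∈ w)
    rw [mem_M4 σ, h3]
    by_cases ht : t ∈ w
    · simp [ht]
    · rw [List.count_eq_zero_of_not_mem ht]
      have hp : ∀ z : Fin 4, w.count z ≠ 0 ↔ z ∈ w := by
        intro z
        rw [← List.count_pos_iff, Nat.pos_iff_ne_zero]
      rw [hp, hp]
      tauto
  show Pool.Agent.Helper336.CF.IsCF ({w | w ∈ M4 ∧ t ∉ w} : Set (List (Fin 4)))
  rw [e]
  exact c3

section
variable {n : ℕ}

/-- Projection onto the first four letters. -/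
def pr (n : ℕ) : Fin n → List (Fin 4) := fun a => if h : a.1 < 4 then [⟨a.1, h⟩] else []

/-- Every letter occurs and no three of the first four letters occur equally often. -/
def Mn (n : ℕ) : Language (Fin n) := {w | (∀ a, a ∈ w) ∧ w.flatMap (pr n) ∈ M4}

theorem Mn_perm {w v : List (Fin n)} (h : w.Perm v) (hw : w ∈ Mn n) : v ∈ Mn n := by
  refine ⟨fun a => h.mem_iff.1 (hw.1 a), ?_⟩
  intro hb
  exact hw.2 (bad_perm (h.flatMap_right _).symm hb)

theorem map_pr_sublist (hn : 4 ≤ n) (w : List (Fin n)) :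
    List.Sublist ((w.flatMap (pr n)).map (Fin.castLE hn)) w := by
  induction w with
  | nil => simp
  | cons a w ih =>
    rw [List.flatMap_cons, List.map_append]
    by_cases ha : a.1 < 4
    · simp only [pr, dif_pos ha, List.map_cons, List.map_nil, List.cons_append, List.nil_append]
      exact ih.cons_cons a
    · simp only [pr, dif_neg ha, List.map_nil, List.nil_append]
      exact ih.cons a

/-- Words in which every letter occurs. -/
theorem reg_full {A : Type} [Fintype A] :
    Language.IsRegular ({w : List A | ∀ a, a ∈ w} : Language A) := by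
  classical
  have key : ∀ s : Finset A, Language.IsRegular ({w : List A | ∀ a ∈ s, a ∈ w} : Language A) := by
    intro s
    induction s using Finset.induction_on with
    | empty =>
      have e : ({w : List A | ∀ a ∈ (∅ : Finset A), a ∈ w} : Language A) =
          ({w : List A | True} : Language A) := by
        ext w
        exact ⟨fun _ => trivial, fun _ a ha => absurd ha (Finset.notMem_empty a)⟩
      rw [e]
      exact reg_univ
    | insert c s _ ih =>
      have e : ({w : List A | ∀ a ∈ insert c s, a ∈ w} : Language A) =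
          ({w : List A | c ∈ w} : Language A) ⊓ ({w : List A | ∀ a ∈ s, a ∈ w} : Language A) := by
        ext w
        show (∀ a ∈ insert c s, a ∈ w) ↔ (c ∈ w) ∧ (∀ a ∈ s, a ∈ w)
        simp [Finset.mem_insert]
      rw [e]
      exact (reg_mem c).inf ih
  have h := key Finset.univ
  simpa using h

/-- Slices with `n` different blocks. -/
theorem cf_perm (hn : 4 ≤ n) (σ : Equiv.Perm (Fin n)) :
    Language.IsContextFree ({w | w ∈ Mn n ∧ w ∈ blocks (fun i => σ i)} : Language (Fin n)) := by
  let f : Fin 4 → Fin n := fun i => σ.symm (Fin.castLE hn i)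
  have hf : Function.Injective f := σ.symm.injective.comp (Fin.castLE_injective hn)
  let τ : Equiv.Perm (Fin 4) := Tuple.sort f
  have hmono : Monotone (f ∘ τ) := Tuple.monotone_sort f
  have hsm : StrictMono (f ∘ τ) := hmono.strictMono_of_injective (hf.comp τ.injective)
  have h := cf_comap_inter (pr n) (cf_inj (fun i => τ i) τ.injective)
    ((reg_full (A := Fin n)).inf (reg_blocks (fun i => σ i)))
  have e : ({w | w ∈ Mn n ∧ w ∈ blocks (fun i => σ i)} : Language (Fin n)) =
      ({w | w.flatMap (pr n) ∈ ({w | w ∈ M4 ∧ w ∈ blocks (fun i => τ i)} : Language (Fin 4)) ∧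
        w ∈ (({w : List (Fin n) | ∀ a, a ∈ w} : Language (Fin n)) ⊓ blocks (fun i => σ i))} :
          Language (Fin n)) := by
    ext w
    show (((∀ a, a ∈ w) ∧ w.flatMap (pr n) ∈ M4) ∧ w ∈ blocks (fun i => σ i)) ↔
      ((w.flatMap (pr n) ∈ M4 ∧ w.flatMap (pr n) ∈ blocks (fun i => τ i)) ∧ (∀ a, a ∈ w) ∧
        w ∈ blocks (fun i => σ i))
    constructor
    · rintro ⟨⟨h1, h2⟩, h3⟩
      refine ⟨⟨h2, ?_⟩, h1, h3⟩
      obtain ⟨l, hl, hlw⟩ := (mem_blocks _ w).1 h3
      have hsub := (map_pr_sublist hn w).map σ.symm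
      have hl2 : w.map σ.symm = l := by rw [hlw]; simp
      rw [hl2] at hsub
      have hs := hl.sublist hsub
      rw [List.map_map, List.pairwise_map] at hs
      refine (mem_blocks _ _).2 ⟨(w.flatMap (pr n)).map τ.symm, ?_, ?_⟩
      · rw [List.pairwise_map]
        refine hs.imp ?_
        intro a c hac
        by_contra hlt
        have h1 := hsm (not_le.1 hlt)
        simp only [Function.comp, Equiv.apply_symm_apply] at h1
        exact absurd hac (not_le.2 h1)
      · simp
    · rintro ⟨⟨h2, _⟩, h1, h3⟩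
      exact ⟨⟨h1, h2⟩, h3⟩
  rw [e]
  exact h

/-- All slices with at most `n` blocks. -/
theorem cf_slice (hn : 4 ≤ n) {m : ℕ} (hm : m ≤ n) (b : Fin m → Fin n) :
    Language.IsContextFree ({w | w ∈ Mn n ∧ w ∈ blocks b} : Language (Fin n)) := by
  by_cases hs : Function.Surjective b
  · have hmn : m = n := by
      have := Fintype.card_le_of_surjective b hs
      simp only [Fintype.card_fin] at this
      omega
    subst hmn
    exact cf_perm hn (Equiv.ofBijective b (Finite.surjective_iff_bijective.1 hs))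
  · obtain ⟨t, ht⟩ : ∃ t, ∀ j, b j ≠ t := by
      simpa [Function.Surjective] using hs
    have e : ({w | w ∈ Mn n ∧ w ∈ blocks b} : Set (List (Fin n))) = ∅ := by
      rw [Set.eq_empty_iff_forall_notMem]
      rintro w ⟨h1, h2⟩
      obtain ⟨l, _, rfl⟩ := (mem_blocks b w).1 h2
      obtain ⟨j, _, hj⟩ := List.mem_map.1 (h1.1 t)
      exact ht j hj
    show Pool.Agent.Helper336.CF.IsCF ({w | w ∈ Mn n ∧ w ∈ blocks b} : Set (List (Fin n)))
    rw [e]
    exact Pool.Agent.Helper336.CF.cf_empty

/-- The part of `M4` in which all four letters occur is not context-free. -/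
theorem not_cf_full (h : Language.IsContextFree
    ({u : List (Fin 4) | (∀ a, a ∈ u) ∧ u ∈ M4} : Language (Fin 4))) : False := by
  have h1 := Pool.Agent.Helper336.CF.cf_iUnion (Set.univ : Set (Fin 4)) Set.finite_univ
    (fun t => {w | w ∈ M4 ∧ t ∉ w}) (fun t _ => cf_missing t)
  have h2 := Pool.Agent.Helper336.CF.cf_union h h1
  obtain ⟨g, hg⟩ := h2
  refine Fliess.not_contextFree g (fun w => ?_)
  rw [hg]
  show (((∀ a, a ∈ w) ∧ w ∈ M4) ∨ w ∈ (⋃ t ∈ (Set.univ : Set (Fin 4)), {w | w ∈ M4 ∧ t ∉ w})) ↔ w ∈ M4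
  simp only [Set.mem_univ, Set.iUnion_true, Set.mem_iUnion]
  constructor
  · rintro (h | ⟨t, h⟩)
    · exact h.2
    · exact h.1
  · intro h
    by_cases hw : ∀ a, a ∈ w
    · exact Or.inl ⟨hw, h⟩
    · push Not at hw
      obtain ⟨t, ht⟩ := hw
      exact Or.inr ⟨t, h, ht⟩

theorem not_cf (hn : 4 ≤ n) : ¬ (Mn n).IsContextFree := by
  intro hcf
  -- the morphism `0 ↦ 0 4 5 ⋯ (n-1)`, `1 ↦ 1`, `2 ↦ 2`, `3 ↦ 3`
  let R : List (Fin n) := (List.finRange n).filter (fun a => 4 ≤ a.1)
  let φ : Fin 4 → List (Fin n) := fun a => Fin.castLE hn a :: (if a = 0 then R else [])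
  have hR : R.flatMap (pr n) = [] := by
    rw [List.flatMap_eq_nil_iff]
    intro a ha
    have : 4 ≤ a.1 := by simpa [R] using ha
    simp [pr, not_lt.2 this]
  have hφ : ∀ u : List (Fin 4), (u.flatMap φ).flatMap (pr n) = u := by
    intro u
    induction u with
    | nil => rfl
    | cons a u ih =>
      rw [List.flatMap_cons, List.flatMap_append, ih]
      have : (φ a).flatMap (pr n) = [a] := by
        by_cases ha : a = 0
        · simp only [φ, if_pos ha, List.flatMap_cons, hR]
          simp [pr]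
        · simp only [φ, if_neg ha, List.flatMap_cons]
          simp [pr]
      rw [this]
      rfl
  have hmem : ∀ u : List (Fin 4), (∀ a : Fin n, a ∈ u.flatMap φ) ↔ (∀ a, a ∈ u) := by
    intro u
    constructor
    · intro h a
      obtain ⟨c, hc, hac⟩ := List.mem_flatMap.1 (h (Fin.castLE hn a))
      simp only [φ, List.mem_cons] at hac
      rcases hac with hac | hac
      · rw [Fin.castLE_injective hn hac]
        exact hc
      · exfalso
        split_ifs at hac
        · have h4 : 4 ≤ (Fin.castLE hn a).1 := by simpa [R] using hac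
          have h5 : (Fin.castLE hn a).1 = a.1 := rfl
          have h6 := a.2
          omega
        · simp at hac
    · intro h a
      rw [List.mem_flatMap]
      by_cases ha : a.1 < 4
      · exact ⟨⟨a.1, ha⟩, h _, by simp [φ]⟩
      · refine ⟨0, h 0, ?_⟩
        simp only [φ, if_true, List.mem_cons]
        right
        simp [R]
        omega
  have h := cf_comap_inter φ hcf reg_univ
  apply not_cf_full
  have e : ({u : List (Fin 4) | (∀ a, a ∈ u) ∧ u ∈ M4} : Language (Fin 4)) =
      ({u | u.flatMap φ ∈ Mn n ∧ u ∈ ({w : List (Fin 4) | True} : Language (Fin 4))} :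
        Language (Fin 4)) := by
    ext u
    show ((∀ a, a ∈ u) ∧ u ∈ M4) ↔ (((∀ a, a ∈ u.flatMap φ) ∧ (u.flatMap φ).flatMap (pr n) ∈ M4) ∧ True)
    rw [hφ, hmem]
    tauto
  rw [e]
  exact h

end

/-- For every `n ≥ 4` there is a context-free language `L ⊆ a₁* ⋯ aₙ*` such that
`comm L ∩ b₁* ⋯ b_m*` is context-free for every `m ≤ n` and every choice of letters `b₁, …, b_m`
(repetitions allowed), but `comm L` is not context-free. -/
theorem result (n : ℕ) (hn : 4 ≤ n) :
    ∃ L : Language (Fin n),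
      L.IsContextFree ∧
      L ≤ blocks (fun i : Fin n => i) ∧
      (∀ m ≤ n, ∀ b : Fin m → Fin n, (comm L ⊓ blocks b).IsContextFree) ∧
      ¬ (comm L).IsContextFree := by
  let L : Language (Fin n) := {w | w ∈ Mn n ∧ w ∈ blocks (fun i : Fin n => i)}
  have hcomm : comm L = Mn n := by
    ext w
    constructor
    · rintro ⟨v, hv, hvw⟩
      exact Mn_perm hvw hv.1
    · intro hw
      refine ⟨w.insertionSort (· ≤ ·), ⟨Mn_perm (List.perm_insertionSort _ w).symm hw, ?_⟩,
        List.perm_insertionSort _ w⟩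
      exact (mem_blocks _ _).2 ⟨w.insertionSort (· ≤ ·), List.pairwise_insertionSort _ w, by simp⟩
  refine ⟨L, cf_slice hn le_rfl _, fun w hw => hw.2, ?_, ?_⟩
  · intro m hm b
    rw [hcomm]
    exact cf_slice hn hm b
  · rw [hcomm]
    exact not_cf hn

end Pool.Agent.Results.MP_434a84_lc.SliceCriterion
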